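import Pool.Agent.Helper21.CU.St

/-!
# Project CU, module PRM
-/

set_option autoImplicit false

namespace Pool.Agent.Helper41.CU

open Finset
open Pool.Agent.Helper21.CU

theorem hPRM (h3 : StM3) : StPRM := by
  obtain ⟨C, hC, hM⟩ := h3
  set ε : ℝ := Real.exp (-4 * C - 2) with hε
  have hε0 : 0 < ε := Real.exp_pos _
  have hε1 : ε ≤ 1 := by
    rw [hε]
    exact Real.exp_le_one_iff.2 (by linarith)
  have hlε : Real.log ε = -4 * C - 2 := by rw [hε, Real.log_exp]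
  refine ⟨ε, hε0, hε1, fun k hk => ?_⟩
  set K : ℝ := 3 * |(k : ℝ)| + 5 with hK
  have hK5 : 5 ≤ K := by
    have := abs_nonneg (k : ℝ)
    linarith
  refine ⟨max (K ^ (1 / ε)) 3, fun P hP => ?_⟩
  have hP3 : 3 ≤ P := (le_max_right _ _).trans hP
  have hP0 : 0 < P := by linarith
  have hPK : K ≤ P ^ ε := by
    have h1 : K ^ (1 / ε) ≤ P := (le_max_left _ _).trans hP
    have h2 := Real.rpow_le_rpow (by positivity) h1 hε0.le
    rwa [← Real.rpow_mul (by linarith), one_div, inv_mul_cancel₀ hε0.ne', Real.rpow_one] at h2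
  set y : ℝ := P ^ ε with hy
  have hyP : y ≤ P := by
    rw [hy]
    calc P ^ ε ≤ P ^ (1 : ℝ) := Real.rpow_le_rpow_of_exponent_le (by linarith) hε1
      _ = P := Real.rpow_one P
  have hy5 : 5 ≤ y := hK5.trans hPK
  have hy0 : 0 < y := by linarith
  have hlP : 0 < Real.log P := Real.log_pos (by linarith)
  have hly : Real.log (Real.log y) = Real.log ε + Real.log (Real.log P) := by
    rw [hy, Real.log_rpow hP0, Real.log_mul hε0.ne' hlP.ne']
  set f : ℕ → ℝ := fun p => (1 : ℝ) / p with hf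
  set A := (Icc 1 ⌊P⌋₊).filter (fun p : ℕ => p.Prime ∧ p % 3 = 2) with hA
  set B := (Icc 1 ⌊y⌋₊).filter (fun p : ℕ => p.Prime ∧ p % 3 = 2) with hB
  have hBA : B ⊆ A := by
    intro p hp
    rw [hB, mem_filter, mem_Icc] at hp
    rw [hA, mem_filter, mem_Icc]
    exact ⟨⟨hp.1.1, hp.1.2.trans (Nat.floor_le_floor hyP)⟩, hp.2⟩
  have h1 := hM P hP3
  have h2 := hM y (by linarith)
  rw [abs_le] at h1 h2
  have h4 : 1 ≤ ∑ p ∈ A \ B, (1 : ℝ) / p := by
    have h5 : ∑ p ∈ A \ B, (1 : ℝ) / p + ∑ p ∈ B, (1 : ℝ) / p = ∑ p ∈ A, (1 : ℝ) / p :=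
      Finset.sum_sdiff hBA
    rw [hly, hlε] at h2
    linarith [h1.1, h2.2]
  have hT : ∀ p ∈ A \ B, p.Prime ∧ p % 3 = 2 ∧ y < p ∧ (p : ℝ) ≤ P := by
    intro p hp
    rw [mem_sdiff, hA, hB, mem_filter, mem_filter, mem_Icc, mem_Icc] at hp
    obtain ⟨⟨⟨ha, hb⟩, hc, hd⟩, hne⟩ := hp
    refine ⟨hc, hd, ?_, ?_⟩
    · by_contra hcon
      exact hne ⟨⟨ha, Nat.le_floor (not_lt.1 hcon)⟩, hc, hd⟩
    · exact (Nat.le_floor_iff hP0.le).1 hb
  refine ⟨A \ B, ?_, ?_⟩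
  · intro p hp
    obtain ⟨hp1, hp2, hp3, hp4⟩ := hT p hp
    have hpK : K < p := lt_of_le_of_lt hPK hp3
    refine ⟨hp1, hp2, ?_, ?_, hp3, hp4⟩
    · have h6 : (5 : ℝ) < p := lt_of_le_of_lt hK5 hpK
      have h7 : 5 < p := by exact_mod_cast h6
      exact h7.le
    · intro hdvd
      have h6 : (3 * k : ℤ) ≠ 0 := by
        intro h0
        apply hk
        omega
      have h7 := Int.le_of_dvd (abs_pos.2 h6) ((dvd_abs _ _).2 hdvd)
      have h8 : (p : ℝ) ≤ |3 * (k : ℝ)| := by exact_mod_cast h7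
      rw [abs_mul, abs_of_pos (by norm_num : (0 : ℝ) < 3)] at h8
      linarith
  · have h5 : ∑ p ∈ A \ B, (1 : ℝ) / p ≤ ∑ _p ∈ A \ B, 1 / y := by
      refine Finset.sum_le_sum fun p hp => ?_
      exact one_div_le_one_div_of_le hy0 (hT p hp).2.2.1.le
    rw [Finset.sum_const, nsmul_eq_mul] at h5
    have h6 : 1 ≤ ((A \ B).card : ℝ) * (1 / y) := h4.trans h5
    rw [mul_one_div, le_div_iff₀ hy0, one_mul] at h6
    exact h6

end Pool.Agent.Helper41.CU
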